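import Mathlib
import Pool.Agent.Helper423_Ceer.Bridge

open Helper423Ceer

/-- There is one ceer `E0` other than `Id_1` such that, for every Martin-Löf random `X`, the
following are equivalent: `X` computes a diagonal function for `E0`; some `Y` computable from `X`
has its Turing degree in `Diag`; the Turing degree of `X` is in `Diag`; `X` computes the halting
set.  So no degree below an incomplete Martin-Löf random degree belongs to `Diag`. -/
theorem Pool.Agent.Results.MP_a87378_lc.RandomDiag.result :
    ∃ E0 : ℕ → ℕ → Prop, NontrivialCeer E0 ∧ ∀ X : ℕ → Bool, MLRandom X →
      List.TFAE [ComputesDiagonal (orc X) E0,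
        ∃ Y : ℕ → ℕ, TuringReducible (fun n => Part.some (Y n)) (orc X) ∧
          InDiag (fun n => Part.some (Y n)),
        InDiag (orc X),
        ComputesHalting (orc X)] := main
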