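import Mathlib
import Pool.Agent.Helper423_Ceer.WttSet

open Helper423Ceer

/-- There is a set `A` such that every ceer other than `Id_1` has a diagonal function which is weak
truth-table reducible to `A`, but no diagonally noncomputable function with values `0` and `1` is
weak truth-table reducible to `A`. -/
theorem Pool.Agent.Results.MP_a87378_lc.WttSeparation.result :
    ∃ A : ℕ → Bool,
      (∀ E, NontrivialCeer E → ∃ g : ℕ → ℕ, (∀ x, ¬ E (g x) x) ∧ Wtt g A) ∧
      ∀ f : ℕ → ℕ, (∀ n, f n < 2) →
        (∀ n, f n ∉ Nat.Partrec.Code.eval (Denumerable.ofNat Nat.Partrec.Code n) n) →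
        ¬ Wtt f A := exists_set
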